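import Pool.Agent.Q178.QN.Finite

/-!
# The orbits of the iterated lifting properties are finite
-/

open CategoryTheory

universe u

namespace Pool.Agent.Results.MP_78ea0d_gt.FiniteOrbits

/-- The two letters. -/
inductive Letter
  | l
  | r

/-- The Quillen negations of a class of morphisms of `Top`: `P ^ l` consists of the maps with the
left lifting property, `P ^ r` of the maps with the right lifting property with respect to all
members of `P`. -/
def neg (P : MorphismProperty TopCat.{u}) : Letter → MorphismProperty TopCat.{u}
  | Letter.l => P.llp
  | Letter.r => P.rlp

/-- `P ^ w`: apply the letters of the word `w` from left to right. -/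
def power (P : MorphismProperty TopCat.{u}) (w : List Letter) : MorphismProperty TopCat.{u} :=
  w.foldl neg P

/-- The class whose only member is `f`. -/
def single {X Y : TopCat.{u}} (f : X ⟶ Y) : MorphismProperty TopCat.{u} :=
  MorphismProperty.ofHoms fun _ : Unit => f

/-- The letters of the library. -/
def tr : Letter → Q178.Orth.Letter
  | Letter.l => Q178.Orth.Letter.l
  | Letter.r => Q178.Orth.Letter.r

lemma power_eq (w : List Letter) : ∀ P : MorphismProperty TopCat.{u},
    w.foldl neg P = (w.map tr).foldl Q178.Orth.orth P := by
  induction w with
  | nil => exact fun _ => rfl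
  | cons a w ih =>
    intro P
    cases a
    · exact ih _
    · exact ih _

/-- There is a number `N` such that for every continuous map `f` of topological spaces (finite or
not) there are at most `N` different classes among the `{f} ^ w`, where `w` runs over all finite
words; the same holds for every class of maps in place of `{f}`. -/
theorem result : ∃ N : ℕ,
    (∀ {X Y : TopCat.{u}} (f : X ⟶ Y), (Set.range (power (single f))).Finite ∧
      (Set.range (power (single f))).ncard ≤ N) ∧
    ∀ P : MorphismProperty TopCat.{u}, (Set.range (power P)).Finite ∧
      (Set.range (power P)).ncard ≤ N := by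
  have hfin := Q178.QN.finite_operators.{u}
  let Op := Set.range (fun (w : List Q178.Orth.Letter) (P : MorphismProperty TopCat.{u}) =>
      w.foldl Q178.Orth.orth P)
  have key : ∀ P : MorphismProperty TopCat.{u},
      Set.range (power P) ⊆ (fun O : MorphismProperty TopCat.{u} → MorphismProperty TopCat.{u} =>
        O P) '' Op := by
    rintro P _ ⟨w, rfl⟩
    exact ⟨_, ⟨w.map tr, rfl⟩, (power_eq w P).symm⟩
  have main : ∀ P : MorphismProperty TopCat.{u}, (Set.range (power P)).Finite ∧
      (Set.range (power P)).ncard ≤ Op.ncard := by
    intro P
    have h1 := hfin.image (fun O : MorphismProperty TopCat.{u} → MorphismProperty TopCat.{u} =>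
      O P)
    exact ⟨h1.subset (key P), (Set.ncard_le_ncard (key P) h1).trans (Set.ncard_image_le hfin)⟩
  exact ⟨Op.ncard, fun f => main _, main⟩

end Pool.Agent.Results.MP_78ea0d_gt.FiniteOrbits
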